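import Mathlib

/-!
# MP_72b8ed_an: a non-diagonal certificate on the domain of the master certificate

With `x = z w̄` let `k = (1 - 2x²) / (1 - 3x/2 - x²)`. The master certificate of `k` is
`ϑ = (3/2) x / (1 - x²)`, and `Ω = Ω^1_ϑ = {|z|² < 1/2}`. Let `τ(z) = (z² + z⁴)/2`. Then
`T(z,w) = (1 - τ(z) τ(w)*) / (1 - x²)` is a kernel, and so are
`h = 1 - (1 - 2x²) T = τ τ* + x² T` and `F = 1 - (1 - 3x/2 - x²) T = τ τ* + (3/2) x T`.
Hence `s = 1/(1 - F)` is a holomorphic complete Pick kernel on `Ω` with `s(z,0) = 1` and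
`k = (1 - h) s`, and `s` is not diagonal.
-/

set_option autoImplicit false

namespace Pool.Agent.Results.MP_72b8ed_an.NonDiagonalCertificate

open scoped ComplexConjugate ComplexOrder BigOperators
open Filter Topology

/-- `K` is a kernel on `Ω`: all the matrices `[K(z_i, z_j)]`, `z_i ∈ Ω`, are positive semidefinite. -/
def IsKernelOn (Ω : Set ℂ) (K : ℂ → ℂ → ℂ) : Prop :=
  ∀ (n : ℕ) (z : Fin n → ℂ), (∀ i, z i ∈ Ω) → (Matrix.of fun i j => K (z i) (z j)).PosSemidef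

/-- `K` is a holomorphic kernel on `Ω`: it is holomorphic in the first variable and antiholomorphic in
the second one. -/
def IsHolomorphicKernelOn (Ω : Set ℂ) (K : ℂ → ℂ → ℂ) : Prop :=
  IsKernelOn Ω K ∧ (∀ w ∈ Ω, DifferentiableOn ℂ (fun z => K z w) Ω) ∧
    ∀ z ∈ Ω, DifferentiableOn ℂ (fun w => conj (K z w)) Ω

/-- `s` is a complete Pick kernel on `Ω`, normalized at `0`: `s(z,0) = 1` for `z ∈ Ω`, and `1 - 1/s` is
a kernel on `Ω`. -/
def IsNormalizedCPKernelOn (Ω : Set ℂ) (s : ℂ → ℂ → ℂ) : Prop :=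
  IsKernelOn Ω s ∧ (∀ z ∈ Ω, s z 0 = 1) ∧ (∀ z ∈ Ω, ∀ w ∈ Ω, s z w ≠ 0) ∧
    IsKernelOn Ω fun z w => 1 - 1 / s z w

/-- The expansion of `K` at the origin is `∑ k_a z^a w̄^a`, with all `k_a > 0`. -/
def HasDiagonalExpansion (K : ℂ → ℂ → ℂ) (k : ℕ → ℝ) : Prop :=
  (∀ a, 0 < k a) ∧ ∃ ε > 0, ∀ z w : ℂ, ‖z‖ < ε → ‖w‖ < ε →
    HasSum (fun a => (k a : ℂ) * z ^ a * conj w ^ a) (K z w)

/-- `K` is diagonal. -/
def IsDiagonal (K : ℂ → ℂ → ℂ) : Prop := ∃ k : ℕ → ℝ, HasDiagonalExpansion K k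

/-- `ϑ` is the sequence of coefficients of the master certificate of `1 + ∑ k_a z^a w̄^a`. -/
def IsMasterCertificate (k ϑ : ℕ → ℝ) : Prop :=
  ϑ 0 = 0 ∧ ϑ 1 = k 1 ∧
    ∀ b, 2 ≤ b → ϑ b = max 0 (k b - ∑ u ∈ Finset.Ioo 0 b, ϑ u * k (b - u))

/-- `Ω_ϑ` -/
def domTheta (ϑ : ℕ → ℝ) : Set ℂ :=
  interior {x : ℂ | BddAbove (Set.range fun b : ℕ => ϑ b * ‖x‖ ^ (2 * b))}

/-- `Ω^1_ϑ` -/
def domThetaOne (ϑ : ℕ → ℝ) : Set ℂ :=
  {x : ℂ | x ∈ domTheta ϑ ∧ ∑' b : ℕ, ϑ b * ‖x‖ ^ (2 * b) < 1}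

/-! ### Kernels -/

section kernels

variable {Ω : Set ℂ} {K L : ℂ → ℂ → ℂ}

lemma IsKernelOn.congr (h : IsKernelOn Ω K) (e : ∀ z ∈ Ω, ∀ w ∈ Ω, L z w = K z w) :
    IsKernelOn Ω L := by
  intro n z hz
  have : (Matrix.of fun i j => L (z i) (z j)) = Matrix.of fun i j => K (z i) (z j) := by
    ext i j; exact e _ (hz i) _ (hz j)
  rw [this]
  exact h n z hz

lemma IsKernelOn.add (h : IsKernelOn Ω K) (h' : IsKernelOn Ω L) :
    IsKernelOn Ω fun z w => K z w + L z w := fun n z hz => (h n z hz).add (h' n z hz)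

lemma IsKernelOn.mul (h : IsKernelOn Ω K) (h' : IsKernelOn Ω L) :
    IsKernelOn Ω fun z w => K z w * L z w := fun n z hz =>
  (h n z hz).hadamard (h' n z hz)

lemma kernel_rankOne (f : ℂ → ℂ) : IsKernelOn Ω fun z w => f z * conj (f w) := by
  intro n z _
  have h := Matrix.posSemidef_vecMulVec_self_star (fun i => f (z i))
  exact h

lemma kernel_const {c : ℝ} (hc : 0 ≤ c) : IsKernelOn Ω fun _ _ => (c : ℂ) := by
  refine (kernel_rankOne fun _ => ((Real.sqrt c : ℝ) : ℂ)).congr fun z _ w _ => ?_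
  rw [Complex.conj_ofReal, ← Complex.ofReal_mul, Real.mul_self_sqrt hc]

lemma kernel_x : IsKernelOn Ω fun z w => z * conj w := kernel_rankOne fun z => z

lemma IsKernelOn.pow (h : IsKernelOn Ω K) (n : ℕ) : IsKernelOn Ω fun z w => K z w ^ n := by
  induction n with
  | zero =>
    refine (kernel_const zero_le_one).congr fun z _ w _ => ?_
    simp
  | succ n ih =>
    refine (ih.mul h).congr fun z _ w _ => ?_
    rw [pow_succ]

lemma kernel_sum {ι : Type*} (s : Finset ι) {K : ι → ℂ → ℂ → ℂ} (h : ∀ i ∈ s, IsKernelOn Ω (K i)) :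
    IsKernelOn Ω fun z w => ∑ i ∈ s, K i z w := by
  classical
  induction s using Finset.induction_on with
  | empty =>
    refine (kernel_const le_rfl).congr fun z _ w _ => ?_
    simp
  | insert a s ha ih =>
    refine ((h a (Finset.mem_insert_self a s)).add
      (ih fun i hi => h i (Finset.mem_insert_of_mem hi))).congr fun z _ w _ => ?_
    rw [Finset.sum_insert ha]

lemma kernel_lim {Kn : ℕ → ℂ → ℂ → ℂ} (h : ∀ n, IsKernelOn Ω (Kn n))
    (hlim : ∀ z ∈ Ω, ∀ w ∈ Ω, Tendsto (fun n => Kn n z w) atTop (𝓝 (K z w))) :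
    IsKernelOn Ω K := by
  intro m z hz
  refine Matrix.PosSemidef.of_dotProduct_mulVec_nonneg ?_ fun c => ?_
  · ext i j
    simp only [Matrix.conjTranspose_apply, Matrix.of_apply]
    have h1 := hlim _ (hz i) _ (hz j)
    have h2 := (continuous_star.tendsto _).comp (hlim _ (hz j) _ (hz i))
    refine tendsto_nhds_unique h2 (h1.congr fun n => ?_)
    have := congrFun (congrFun (h n m z hz).1 i) j
    simp only [Matrix.conjTranspose_apply, Matrix.of_apply] at this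
    exact this.symm
  · have h1 : Tendsto (fun n => star c ⬝ᵥ ((Matrix.of fun i j => Kn n (z i) (z j)).mulVec c)) atTop
        (𝓝 (star c ⬝ᵥ ((Matrix.of fun i j => K (z i) (z j)).mulVec c))) := by
      simp only [dotProduct, Matrix.mulVec, Matrix.of_apply]
      refine tendsto_finsetSum _ fun i _ => Tendsto.const_mul _ ?_
      exact tendsto_finsetSum _ fun j _ => (hlim _ (hz i) _ (hz j)).mul_const _
    exact ge_of_tendsto' h1 fun n => (h n m z hz).dotProduct_mulVec_nonneg c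

lemma kernel_geom (h : IsKernelOn Ω K) (h1 : ∀ z ∈ Ω, ∀ w ∈ Ω, ‖K z w‖ < 1) :
    IsKernelOn Ω fun z w => (1 - K z w)⁻¹ := by
  refine kernel_lim (Kn := fun n z w => ∑ i ∈ Finset.range n, K z w ^ i)
    (fun n => kernel_sum _ fun i _ => h.pow i) fun z hz w hw => ?_
  exact (hasSum_geometric_of_norm_lt_one (h1 z hz w hw)).tendsto_sum_nat

/-- Cauchy-Schwarz -/
lemma IsKernelOn.norm_lt_one (h : IsKernelOn Ω K) (h1 : ∀ z ∈ Ω, (K z z).re < 1) :
    ∀ z ∈ Ω, ∀ w ∈ Ω, ‖K z w‖ < 1 := by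
  intro z hz w hw
  have hp := h 2 ![z, w] (by intro i; fin_cases i <;> simp [hz, hw])
  have hd := hp.det_nonneg
  have hh := congrFun (congrFun hp.1 1) 0
  have h0 := hp.diag_nonneg (i := 0)
  have h2 := hp.diag_nonneg (i := 1)
  rw [Matrix.det_fin_two] at hd
  simp only [Matrix.conjTranspose_apply, Matrix.of_apply, Matrix.cons_val_zero,
    Matrix.cons_val_one] at hd hh h0 h2
  have hzz : K z z = ((K z z).re : ℂ) := by
    have := (Complex.nonneg_iff.1 h0).2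
    apply Complex.ext <;> simp [← this]
  have hww : K w w = ((K w w).re : ℂ) := by
    have := (Complex.nonneg_iff.1 h2).2
    apply Complex.ext <;> simp [← this]
  have hz0 : 0 ≤ (K z z).re := (Complex.nonneg_iff.1 h0).1
  have hw0 : 0 ≤ (K w w).re := (Complex.nonneg_iff.1 h2).1
  rw [← hh, RCLike.star_def, Complex.mul_conj, hzz, hww] at hd
  have hd' : (0 : ℂ) ≤ (((K z z).re * (K w w).re - Complex.normSq (K z w) : ℝ) : ℂ) := by
    push_cast
    exact hd
  have hd'' := Complex.zero_le_real.1 hd'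
  rw [Complex.normSq_eq_norm_sq] at hd''
  have h3 := h1 z hz
  have h4 := h1 w hw
  have h5 : (K z z).re * (K w w).re < 1 := by nlinarith
  by_contra hcon
  push Not at hcon
  nlinarith

end kernels

/-! ### The example -/

/-- the domain `{|z|² < 1/2}` -/
noncomputable def Om : Set ℂ := Metric.ball 0 (Real.sqrt (1 / 2))

lemma mem_Om {z : ℂ} : z ∈ Om ↔ ‖z‖ ^ 2 < 1 / 2 := by
  rw [Om, mem_ball_zero_iff, Real.lt_sqrt (norm_nonneg z)]

lemma x_lt {z w : ℂ} (hz : z ∈ Om) (hw : w ∈ Om) : ‖z * conj w‖ < 1 / 2 := by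
  rw [norm_mul, RCLike.norm_conj]
  have h1 := mem_Om.1 hz
  have h2 := mem_Om.1 hw
  nlinarith [sq_nonneg (‖z‖ - ‖w‖)]

/-- the function `τ` -/
noncomputable def tau (z : ℂ) : ℂ := (z ^ 2 + z ^ 4) / 2

/-- an auxiliary function -/
noncomputable def gg (z : ℂ) : ℂ := (z ^ 2 - z ^ 4) / 2

/-- the kernel `T` -/
noncomputable def TT (z w : ℂ) : ℂ :=
  1 + 1 / 2 * (z * conj w) ^ 2 + gg z * conj (gg w) * (1 - (z * conj w) ^ 2)⁻¹

/-- the kernel `k` -/
noncomputable def KK (z w : ℂ) : ℂ :=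
  (1 - 2 * (z * conj w) ^ 2) / ((1 - 2 * (z * conj w)) * (1 + (z * conj w) / 2))

/-- the kernel `h` -/
noncomputable def hh (z w : ℂ) : ℂ := 1 - (1 - 2 * (z * conj w) ^ 2) * TT z w

/-- the kernel `s` -/
noncomputable def ss (z w : ℂ) : ℂ :=
  ((1 - 2 * (z * conj w)) * (1 + (z * conj w) / 2) * TT z w)⁻¹

lemma one_sub_sq_ne {z w : ℂ} (hz : z ∈ Om) (hw : w ∈ Om) : 1 - (z * conj w) ^ 2 ≠ 0 := by
  intro h
  have h1 : ‖(z * conj w) ^ 2‖ = 1 := by
    rw [← sub_eq_zero.1 h]; simp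
  rw [norm_pow] at h1
  have := x_lt hz hw
  nlinarith [norm_nonneg (z * conj w)]

lemma T_mul {z w : ℂ} (hz : z ∈ Om) (hw : w ∈ Om) :
    (1 - (z * conj w) ^ 2) * TT z w = 1 - tau z * conj (tau w) := by
  have h := one_sub_sq_ne hz hw
  have e : (1 - (z * conj w) ^ 2) * TT z w = (1 - (z * conj w) ^ 2) * (1 + 1 / 2 * (z * conj w) ^ 2)
      + gg z * conj (gg w) * ((1 - (z * conj w) ^ 2) * (1 - (z * conj w) ^ 2)⁻¹) := by
    unfold TT; ring
  rw [e, mul_inv_cancel₀ h]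
  unfold gg tau
  simp only [map_div₀, map_sub, map_add, map_pow, map_ofNat]
  ring

lemma norm_tau_lt {z : ℂ} (hz : z ∈ Om) : ‖tau z‖ < 1 := by
  have h1 := mem_Om.1 hz
  unfold tau
  rw [norm_div]
  have h2 : ‖z ^ 2 + z ^ 4‖ ≤ ‖z‖ ^ 2 + (‖z‖ ^ 2) ^ 2 := by
    refine (norm_add_le _ _).trans (le_of_eq ?_)
    rw [norm_pow, norm_pow]; ring
  have h3 : ‖(2 : ℂ)‖ = 2 := by simp
  rw [h3, div_lt_one (by norm_num)]
  nlinarith [sq_nonneg ‖z‖]

lemma TT_ne {z w : ℂ} (hz : z ∈ Om) (hw : w ∈ Om) : TT z w ≠ 0 := by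
  intro h
  have h1 := T_mul hz hw
  rw [h, mul_zero] at h1
  have h2 : ‖tau z * conj (tau w)‖ = 1 := by
    rw [← sub_eq_zero.1 h1.symm]; simp
  rw [norm_mul, RCLike.norm_conj] at h2
  have h3 := norm_tau_lt hz
  have h4 := norm_tau_lt hw
  nlinarith [norm_nonneg (tau z), norm_nonneg (tau w)]

lemma d1_ne {z w : ℂ} (hz : z ∈ Om) (hw : w ∈ Om) : 1 - 2 * (z * conj w) ≠ 0 := by
  intro h
  have h1 : ‖2 * (z * conj w)‖ = 1 := by rw [← sub_eq_zero.1 h]; simp
  rw [norm_mul] at h1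
  have := x_lt hz hw
  have h3 : ‖(2 : ℂ)‖ = 2 := by simp
  rw [h3] at h1
  linarith

lemma d2_ne {z w : ℂ} (hz : z ∈ Om) (hw : w ∈ Om) : 1 + (z * conj w) / 2 ≠ 0 := by
  intro h
  have h1 : ‖(z * conj w) / 2‖ = 1 := by
    have : (z * conj w) / 2 = -1 := by linear_combination h
    rw [this]; simp
  rw [norm_div] at h1
  have := x_lt hz hw
  have h3 : ‖(2 : ℂ)‖ = 2 := by simp
  rw [h3] at h1
  linarith

lemma kernel_TT : IsKernelOn Om TT := by
  have h1 : IsKernelOn Om fun z w => (z * conj w) ^ 2 := kernel_x.pow 2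
  have h2 : IsKernelOn Om fun z w => (1 - (z * conj w) ^ 2)⁻¹ := by
    refine kernel_geom h1 fun z hz w hw => ?_
    rw [norm_pow]
    have := x_lt hz hw
    nlinarith [norm_nonneg (z * conj w)]
  have h3 := ((kernel_const (Ω := Om) zero_le_one).add
    ((kernel_const (Ω := Om) (c := 1 / 2) (by norm_num)).mul h1)).add ((kernel_rankOne gg).mul h2)
  refine h3.congr fun z _ w _ => ?_
  unfold TT
  push_cast
  ring

lemma hh_eq {z w : ℂ} (hz : z ∈ Om) (hw : w ∈ Om) :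
    hh z w = tau z * conj (tau w) + (z * conj w) ^ 2 * TT z w := by
  have h := T_mul hz hw
  unfold hh
  linear_combination -h

lemma kernel_hh : IsKernelOn Om hh :=
  ((kernel_rankOne tau).add ((kernel_x.pow 2).mul kernel_TT)).congr fun z hz w hw => hh_eq hz hw

/-- `F = 1 - 1/s` -/
noncomputable def FF (z w : ℂ) : ℂ := tau z * conj (tau w) + 3 / 2 * (z * conj w) * TT z w

lemma one_sub_FF {z w : ℂ} (hz : z ∈ Om) (hw : w ∈ Om) :
    1 - FF z w = (1 - 2 * (z * conj w)) * (1 + (z * conj w) / 2) * TT z w := by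
  have h := T_mul hz hw
  unfold FF
  linear_combination -h

lemma kernel_FF : IsKernelOn Om FF := by
  have h1 := (kernel_rankOne (Ω := Om) tau).add
    (((kernel_const (Ω := Om) (c := 3 / 2) (by norm_num)).mul kernel_x).mul kernel_TT)
  refine h1.congr fun z _ w _ => ?_
  unfold FF
  push_cast
  ring

lemma zz (z : ℂ) : z * conj z = ((‖z‖ ^ 2 : ℝ) : ℂ) := by
  rw [Complex.mul_conj, Complex.normSq_eq_norm_sq]

lemma FF_lt {z : ℂ} (hz : z ∈ Om) : (FF z z).re < 1 := by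
  have h := one_sub_FF hz hz
  have ht := mem_Om.1 hz
  set t : ℝ := ‖z‖ ^ 2 with htdef
  have ht0 : 0 ≤ t := sq_nonneg _
  have hT : TT z z = ((1 + 1 / 2 * t ^ 2 + ‖gg z‖ ^ 2 * (1 - t ^ 2)⁻¹ : ℝ) : ℂ) := by
    unfold TT
    rw [zz, zz, ← htdef]
    push_cast
    ring
  rw [hT, zz, ← htdef] at h
  have h2 : FF z z = ((1 - (1 - 2 * t) * (1 + t / 2) *
      (1 + 1 / 2 * t ^ 2 + ‖gg z‖ ^ 2 * (1 - t ^ 2)⁻¹) : ℝ) : ℂ) := by
    have : FF z z = 1 - (1 - FF z z) := by ring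
    rw [this, h]
    push_cast
    ring
  rw [h2, Complex.ofReal_re]
  have h3 : 0 < 1 - t ^ 2 := by nlinarith
  have h4 : 0 < 1 + 1 / 2 * t ^ 2 + ‖gg z‖ ^ 2 * (1 - t ^ 2)⁻¹ := by positivity
  have h5 : 0 < (1 - 2 * t) * (1 + t / 2) := mul_pos (by linarith) (by linarith)
  nlinarith [mul_pos h5 h4]

lemma ss_eq {z w : ℂ} (hz : z ∈ Om) (hw : w ∈ Om) : ss z w = (1 - FF z w)⁻¹ := by
  rw [one_sub_FF hz hw]; rfl

lemma kernel_ss : IsKernelOn Om ss :=
  (kernel_geom kernel_FF (kernel_FF.norm_lt_one fun z hz => FF_lt hz)).congr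
    fun z hz w hw => ss_eq hz hw

lemma ss_ne {z w : ℂ} (hz : z ∈ Om) (hw : w ∈ Om) : ss z w ≠ 0 :=
  inv_ne_zero (mul_ne_zero (mul_ne_zero (d1_ne hz hw) (d2_ne hz hw)) (TT_ne hz hw))

lemma cp_ss : IsNormalizedCPKernelOn Om ss := by
  refine ⟨kernel_ss, fun z _ => ?_, fun z hz w hw => ss_ne hz hw,
    kernel_FF.congr fun z hz w hw => ?_⟩
  · simp [ss, TT, gg]
  · rw [ss_eq hz hw, one_div, inv_inv]; ring

lemma fact {z w : ℂ} (hz : z ∈ Om) (hw : w ∈ Om) : KK z w = (1 - hh z w) * ss z w := by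
  have h1 := d1_ne hz hw
  have h2 := d2_ne hz hw
  have h3 := TT_ne hz hw
  unfold KK hh ss
  field_simp
  ring

lemma conj_TT (z w : ℂ) : conj (TT z w) = TT w z := by
  unfold TT
  simp only [map_add, map_mul, map_pow, map_sub, map_one, map_inv₀, Complex.conj_conj, map_div₀,
    map_ofNat]
  ring

lemma conj_ss (z w : ℂ) : conj (ss z w) = ss w z := by
  unfold ss
  simp only [map_add, map_mul, map_sub, map_one, map_inv₀, Complex.conj_conj, map_div₀,
    map_ofNat, conj_TT]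
  ring

lemma conj_KK (z w : ℂ) : conj (KK z w) = KK w z := by
  unfold KK
  simp only [map_add, map_mul, map_pow, map_sub, map_one, Complex.conj_conj, map_div₀,
    map_ofNat]
  ring

lemma diff_TT {w : ℂ} (hw : w ∈ Om) : DifferentiableOn ℂ (fun z => TT z w) Om := by
  unfold TT gg
  refine DifferentiableOn.add (by fun_prop) (DifferentiableOn.mul (by fun_prop) ?_)
  exact DifferentiableOn.inv (by fun_prop) fun z hz => one_sub_sq_ne hz hw

lemma diff_ss {w : ℂ} (hw : w ∈ Om) : DifferentiableOn ℂ (fun z => ss z w) Om := by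
  unfold ss
  refine DifferentiableOn.inv (DifferentiableOn.mul (by fun_prop) (diff_TT hw)) fun z hz => ?_
  exact mul_ne_zero (mul_ne_zero (d1_ne hz hw) (d2_ne hz hw)) (TT_ne hz hw)

lemma diff_KK {w : ℂ} (hw : w ∈ Om) : DifferentiableOn ℂ (fun z => KK z w) Om := by
  unfold KK
  refine DifferentiableOn.div (by fun_prop) (by fun_prop) fun z hz => ?_
  exact mul_ne_zero (d1_ne hz hw) (d2_ne hz hw)

lemma hol_ss : IsHolomorphicKernelOn Om ss :=
  ⟨kernel_ss, fun _ hw => diff_ss hw, fun z hz => (diff_ss hz).congr fun w _ => conj_ss z w⟩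

/-- the coefficients of `k` -/
noncomputable def kc (n : ℕ) : ℝ := (if n = 0 then 2 else 0) + 2 / 5 * 2 ^ n - 7 / 5 * (-1 / 2) ^ n

lemma kc_pos (n : ℕ) : 0 < kc n := by
  unfold kc
  rcases Nat.eq_zero_or_pos n with h | h
  · subst h; norm_num
  · rw [if_neg (by omega)]
    have h1 : (2 : ℝ) ≤ 2 ^ n := by
      calc (2 : ℝ) = 2 ^ 1 := by norm_num
        _ ≤ 2 ^ n := pow_le_pow_right₀ (by norm_num) h
    have h2 : (-1 / 2 : ℝ) ^ n ≤ 1 / 2 := by
      have h3 : |(-1 / 2 : ℝ) ^ n| = (1 / 2) ^ n := by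
        rw [abs_pow]; congr 1; rw [abs_of_neg] <;> norm_num
      have h4 : (1 / 2 : ℝ) ^ n ≤ (1 / 2) ^ 1 := pow_le_pow_of_le_one (by norm_num) (by norm_num) h
      have h5 := le_abs_self ((-1 / 2 : ℝ) ^ n)
      rw [h3] at h5
      linarith
    linarith

lemma hasSum_kc {z w : ℂ} (hx : ‖z * conj w‖ < 1 / 2) :
    HasSum (fun a => (kc a : ℂ) * z ^ a * conj w ^ a) (KK z w) := by
  set x := z * conj w with hxdef
  have h1 : HasSum (fun n : ℕ => (2 * x) ^ n) (1 - 2 * x)⁻¹ := by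
    refine hasSum_geometric_of_norm_lt_one ?_
    rw [norm_mul]
    have h3 : ‖(2 : ℂ)‖ = 2 := by simp
    rw [h3]; linarith
  have h2 : HasSum (fun n : ℕ => (-x / 2) ^ n) (1 - (-x / 2))⁻¹ := by
    refine hasSum_geometric_of_norm_lt_one ?_
    rw [norm_div, norm_neg]
    have h3 : ‖(2 : ℂ)‖ = 2 := by simp
    rw [h3]; linarith [norm_nonneg x]
  have h0 : HasSum (fun n : ℕ => if n = 0 then (2 : ℂ) else 0) 2 := by
    simpa using hasSum_ite_eq (0 : ℕ) (2 : ℂ)
  have h4 := (h0.add (h1.mul_left (2 / 5))).sub (h2.mul_left (7 / 5))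
  have hd1 : 1 - 2 * x ≠ 0 := by
    intro h
    have h5 : ‖2 * x‖ = 1 := by rw [← sub_eq_zero.1 h]; simp
    rw [norm_mul] at h5
    have h3 : ‖(2 : ℂ)‖ = 2 := by simp
    rw [h3] at h5
    linarith
  have hd2 : 1 + x / 2 ≠ 0 := by
    intro h
    have h5 : ‖x / 2‖ = 1 := by
      have : x / 2 = -1 := by linear_combination h
      rw [this]; simp
    rw [norm_div] at h5
    have h3 : ‖(2 : ℂ)‖ = 2 := by simp
    rw [h3] at h5
    linarith
  have e : 2 + 2 / 5 * (1 - 2 * x)⁻¹ - 7 / 5 * (1 - (-x / 2))⁻¹ = KK z w := by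
    unfold KK
    rw [← hxdef]
    have hd3 : 1 - (-x / 2) ≠ 0 := by
      have : 1 - (-x / 2) = 1 + x / 2 := by ring
      rw [this]; exact hd2
    rw [eq_div_iff (mul_ne_zero hd1 hd2)]
    have hd4 : 1 - (-x / 2) = 1 + x / 2 := by ring
    rw [hd4]
    have i1 := mul_inv_cancel₀ hd1
    have i2 := mul_inv_cancel₀ hd2
    linear_combination (2 / 5 * (1 + x / 2)) * i1 - (7 / 5 * (1 - 2 * x)) * i2
  rw [e] at h4
  have e2 : (fun n : ℕ => (if n = 0 then (2 : ℂ) else 0) + 2 / 5 * (2 * x) ^ n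
      - 7 / 5 * (-x / 2) ^ n) = fun a => (kc a : ℂ) * z ^ a * conj w ^ a := by
    funext n
    have h5 : z ^ n * conj w ^ n = x ^ n := by rw [hxdef, mul_pow]
    rw [mul_assoc, h5]
    have h6 : (-x / 2) ^ n = (-1 / 2) ^ n * x ^ n := by rw [← mul_pow]; congr 1; ring
    rw [mul_pow, h6]
    unfold kc
    rcases Nat.eq_zero_or_pos n with h | h
    · subst h; push_cast; norm_num
    · rw [if_neg (by omega), if_neg (by omega)]; push_cast; ring
  rw [e2] at h4
  exact h4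

lemma diag_KK : HasDiagonalExpansion KK kc := by
  refine ⟨kc_pos, 1 / 2, by norm_num, fun z w hz hw => hasSum_kc ?_⟩
  rw [norm_mul, RCLike.norm_conj]
  nlinarith [norm_nonneg z, norm_nonneg w]

lemma kernel_KK : IsKernelOn Om KK := by
  refine kernel_lim (Kn := fun n z w => ∑ i ∈ Finset.range n, (kc i : ℂ) * z ^ i * conj w ^ i)
    (fun n => kernel_sum _ fun i _ => ?_) fun z hz w hw => (hasSum_kc (x_lt hz hw)).tendsto_sum_nat
  refine ((kernel_const (kc_pos i).le).mul (kernel_rankOne fun z => z ^ i)).congr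
    fun z _ w _ => ?_
  rw [map_pow]; ring

lemma hol_KK : IsHolomorphicKernelOn Om KK :=
  ⟨kernel_KK, fun _ hw => diff_KK hw, fun z hz => (diff_KK hz).congr fun w _ => conj_KK z w⟩

/-- the master certificate -/
noncomputable def th (n : ℕ) : ℝ := if n % 2 = 1 then 3 / 2 else 0

lemma th_add_two (n : ℕ) : th (n + 2) = th n := by unfold th; simp

lemma kc_rec {n : ℕ} (hn : 1 ≤ n) : kc (n + 2) = 3 / 2 * kc (n + 1) + kc n := by
  unfold kc
  rw [if_neg (by omega), if_neg (by omega), if_neg (by omega)]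
  ring

lemma sum_th (b : ℕ) : ∑ u ∈ Finset.range (b + 2), th u * kc (b + 2 - u) =
    ∑ u ∈ Finset.range b, th u * kc (b - u) + 3 / 2 * kc (b + 1) := by
  rw [Finset.sum_range_succ', Finset.sum_range_succ']
  have h1 : ∀ u ∈ Finset.range b, th (u + 1 + 1) * kc (b + 2 - (u + 1 + 1)) =
      th u * kc (b - u) := by
    intro u _
    have e1 : u + 1 + 1 = u + 2 := by ring
    rw [e1, th_add_two]
    congr 2
    omega
  rw [Finset.sum_congr rfl h1]
  have e2 : th (0 + 1) = 3 / 2 := by unfold th; simp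
  have e3 : th 0 = 0 := by unfold th; simp
  rw [e2, e3]
  have e4 : b + 2 - (0 + 1) = b + 1 := by omega
  rw [e4]
  ring

lemma sum_th_eq : ∀ b : ℕ, 1 ≤ b → ∑ u ∈ Finset.range b, th u * kc (b - u) =
    kc b - (if b % 2 = 1 then 3 / 2 else -1) := by
  intro b
  induction b using Nat.strong_induction_on with
  | _ b ih =>
    intro hb
    rcases Nat.lt_or_ge b 3 with h | h
    · interval_cases b
      · simp [th, kc]; norm_num
      · rw [Finset.sum_range_succ, Finset.sum_range_one]; simp [th, kc]; norm_num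
    · obtain ⟨c, rfl⟩ : ∃ c, b = c + 2 := ⟨b - 2, by omega⟩
      rw [sum_th, ih c (by omega) (by omega), kc_rec (by omega)]
      have : (c + 2) % 2 = c % 2 := by omega
      rw [this]
      ring

lemma master : IsMasterCertificate kc th := by
  refine ⟨by simp [th], ?_, fun b hb => ?_⟩
  · simp [th, kc]; norm_num
  · have h1 : ∑ u ∈ Finset.Ioo 0 b, th u * kc (b - u) =
        ∑ u ∈ Finset.range b, th u * kc (b - u) := by
      refine Finset.sum_subset (fun u hu => ?_) fun u hu hu' => ?_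
      · rw [Finset.mem_range]; exact (Finset.mem_Ioo.1 hu).2
      · have : u = 0 := by
          by_contra h0
          exact hu' (Finset.mem_Ioo.2 ⟨Nat.pos_of_ne_zero h0, Finset.mem_range.1 hu⟩)
        subst this
        simp [th]
    rw [h1, sum_th_eq b (by omega)]
    unfold th
    split_ifs with h
    · rw [max_eq_right] <;> norm_num
    · rw [max_eq_left]; norm_num

lemma hasSum_th {x : ℂ} (hx : ‖x‖ ^ 2 < 1) : HasSum (fun b : ℕ => th b * ‖x‖ ^ (2 * b))
    (3 / 2 * ‖x‖ ^ 2 * (1 - (‖x‖ ^ 2) ^ 2)⁻¹) := by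
  set t : ℝ := ‖x‖ ^ 2 with ht
  have ht0 : 0 ≤ t := sq_nonneg _
  have ho : HasSum (fun b : ℕ => th (2 * b + 1) * ‖x‖ ^ (2 * (2 * b + 1)))
      (3 / 2 * t * (1 - t ^ 2)⁻¹) := by
    have hg : HasSum (fun n : ℕ => (t ^ 2) ^ n) (1 - t ^ 2)⁻¹ :=
      hasSum_geometric_of_lt_one (by positivity) (by nlinarith)
    have e1 : (fun b : ℕ => th (2 * b + 1) * ‖x‖ ^ (2 * (2 * b + 1))) =
        fun b : ℕ => 3 / 2 * t * (t ^ 2) ^ b := by
      funext b
      have h4 : th (2 * b + 1) = 3 / 2 := by unfold th; rw [if_pos (by omega)]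
      have h5 : ‖x‖ ^ (2 * (2 * b + 1)) = t * (t ^ 2) ^ b := by
        rw [ht, ← pow_mul, ← pow_mul, ← pow_add]
        congr 1
        ring
      rw [h4, h5, mul_assoc]
    rw [e1]
    exact hg.mul_left (3 / 2 * t)
  have he : HasSum (fun b : ℕ => th (2 * b) * ‖x‖ ^ (2 * (2 * b))) 0 := by
    have : (fun b : ℕ => th (2 * b) * ‖x‖ ^ (2 * (2 * b))) = fun _ => 0 := by
      funext b
      have h4 : th (2 * b) = 0 := by unfold th; rw [if_neg (by omega)]
      rw [h4, zero_mul]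
    rw [this]
    exact hasSum_zero
  have h6 := HasSum.even_add_odd (f := fun b : ℕ => th b * ‖x‖ ^ (2 * b)) he ho
  rw [zero_add] at h6
  exact h6

lemma dom_eq : domThetaOne th = Om := by
  apply Set.Subset.antisymm
  · rintro x ⟨hx, hs⟩
    have h1 : {x : ℂ | BddAbove (Set.range fun b : ℕ => th b * ‖x‖ ^ (2 * b))} ⊆
        Metric.closedBall 0 1 := by
      intro y hy
      rw [mem_closedBall_zero_iff]
      by_contra hcon
      push Not at hcon
      obtain ⟨M, hM⟩ := hy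
      have h2 : ∀ n : ℕ, 3 / 2 * ‖y‖ ^ (2 * (2 * n + 1)) ≤ M := by
        intro n
        have h3 := hM ⟨2 * n + 1, rfl⟩
        have h4 : th (2 * n + 1) = 3 / 2 := by unfold th; rw [if_pos (by omega)]
        simp only [h4] at h3
        exact h3
      have h5 : Tendsto (fun n : ℕ => ‖y‖ ^ n) atTop atTop := tendsto_pow_atTop_atTop_of_one_lt hcon
      obtain ⟨n, hn⟩ := (h5.eventually_gt_atTop M).exists
      have h6 : ‖y‖ ^ n ≤ ‖y‖ ^ (2 * (2 * n + 1)) := pow_le_pow_right₀ hcon.le (by omega)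
      have h7 := h2 n
      have h8 : 0 ≤ ‖y‖ ^ (2 * (2 * n + 1)) := by positivity
      linarith
    have h2 : ‖x‖ < 1 := by
      have h3 := interior_mono h1 hx
      rw [interior_closedBall _ (by norm_num), mem_ball_zero_iff] at h3
      exact h3
    have ht1 : ‖x‖ ^ 2 < 1 := by nlinarith [norm_nonneg x]
    rw [(hasSum_th ht1).tsum_eq] at hs
    rw [mem_Om]
    set t : ℝ := ‖x‖ ^ 2 with ht
    have ht0 : 0 ≤ t := sq_nonneg _
    have h5 : 0 < 1 - t ^ 2 := by nlinarith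
    rw [← div_eq_mul_inv, div_lt_one h5] at hs
    by_contra hcon
    push Not at hcon
    nlinarith
  · intro x hx
    have hx' := mem_Om.1 hx
    have hx1 : ‖x‖ < 1 := by nlinarith [norm_nonneg x]
    refine ⟨?_, ?_⟩
    · refine mem_interior.2 ⟨Metric.ball 0 1, fun y hy => ?_, Metric.isOpen_ball,
        mem_ball_zero_iff.2 hx1⟩
      have hy1 : ‖y‖ < 1 := mem_ball_zero_iff.1 hy
      refine ⟨3 / 2, ?_⟩
      rintro _ ⟨b, rfl⟩
      have h1 : ‖y‖ ^ (2 * b) ≤ 1 := pow_le_one₀ (norm_nonneg _) hy1.le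
      have h2 : 0 ≤ ‖y‖ ^ (2 * b) := by positivity
      simp only
      unfold th
      split_ifs <;> nlinarith
    · rw [(hasSum_th (by linarith)).tsum_eq]
      set t : ℝ := ‖x‖ ^ 2 with ht
      have ht0 : 0 ≤ t := sq_nonneg _
      have h5 : 0 < 1 - t ^ 2 := by nlinarith
      rw [← div_eq_mul_inv, div_lt_one h5]
      nlinarith

lemma not_diag : ¬ IsDiagonal ss := by
  rintro ⟨f, _, ε, hε, hf⟩
  obtain ⟨r, hr0, hr1⟩ := exists_between (lt_min hε (by norm_num : (0 : ℝ) < 1 / 2))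
  have hrε : r < ε := hr1.trans_le (min_le_left _ _)
  have hr2 : r < 1 / 2 := hr1.trans_le (min_le_right _ _)
  have hn1 : ‖(r : ℂ)‖ = r := by rw [Complex.norm_real, Real.norm_eq_abs, abs_of_pos hr0]
  have hn2 : ‖Complex.I * (r : ℂ)‖ = r := by rw [norm_mul, Complex.norm_I, one_mul, hn1]
  have m1 : (r : ℂ) ∈ Om := by rw [mem_Om, hn1]; nlinarith
  have m2 : Complex.I * (r : ℂ) ∈ Om := by rw [mem_Om, hn2]; nlinarith
  have s1 := hf r r (by rw [hn1]; exact hrε) (by rw [hn1]; exact hrε)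
  have s2 := hf (Complex.I * r) (Complex.I * r) (by rw [hn2]; exact hrε) (by rw [hn2]; exact hrε)
  have e : (fun a => (f a : ℂ) * (Complex.I * r) ^ a * conj (Complex.I * r) ^ a) =
      fun a => (f a : ℂ) * (r : ℂ) ^ a * conj (r : ℂ) ^ a := by
    funext a
    rw [mul_assoc, mul_assoc, ← mul_pow, ← mul_pow]
    congr 2
    rw [map_mul, Complex.conj_I]
    linear_combination (-(r : ℂ) * conj (r : ℂ)) * Complex.I_sq
  rw [e] at s2
  have h1 := s1.unique s2
  have h2 : 1 - FF r r = 1 - FF (Complex.I * r) (Complex.I * r) := by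
    rw [ss_eq m1 m1, ss_eq m2 m2] at h1
    exact inv_injective h1
  rw [one_sub_FF m1 m1, one_sub_FF m2 m2] at h2
  have hx : Complex.I * (r : ℂ) * conj (Complex.I * r) = (r : ℂ) * conj (r : ℂ) := by
    rw [map_mul, Complex.conj_I]
    linear_combination (-(r : ℂ) * conj (r : ℂ)) * Complex.I_sq
  rw [hx] at h2
  have h3 : TT r r = TT (Complex.I * r) (Complex.I * r) :=
    mul_left_cancel₀ (mul_ne_zero (d1_ne m1 m1) (d2_ne m1 m1)) h2
  have h4 := T_mul m1 m1
  have h5 := T_mul m2 m2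
  rw [hx, ← h3, h4] at h5
  have h6 : tau r * conj (tau r) = tau (Complex.I * r) * conj (tau (Complex.I * r)) := by
    linear_combination -h5
  have t1 : tau r = (((r ^ 2 + r ^ 4) / 2 : ℝ) : ℂ) := by unfold tau; push_cast; ring
  have t2 : tau (Complex.I * r) = (((-r ^ 2 + r ^ 4) / 2 : ℝ) : ℂ) := by
    unfold tau
    have i2 : Complex.I ^ 2 = -1 := Complex.I_sq
    have i4 : Complex.I ^ 4 = 1 := Complex.I_pow_four
    rw [mul_pow, mul_pow, i2, i4]
    push_cast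
    ring
  rw [t1, t2, Complex.conj_ofReal, Complex.conj_ofReal, ← Complex.ofReal_mul,
    ← Complex.ofReal_mul] at h6
  have h7 := Complex.ofReal_injective h6
  have h8 : r ^ 6 = 0 := by nlinarith
  exact absurd h8 (by positivity)

lemma not_cp_KK : ¬ IsKernelOn Om fun z w => 1 - 1 / KK z w := by
  intro h
  have hm : ∀ i, (![1 / 2, -1 / 2] : Fin 2 → ℂ) i ∈ Om := by
    intro i
    rw [mem_Om]
    fin_cases i
    · simp; norm_num
    · simp; norm_num
  have h1 := (h 2 ![1 / 2, -1 / 2] hm).dotProduct_mulVec_nonneg (fun _ => 1)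
  simp only [dotProduct, Matrix.mulVec, Fin.sum_univ_two, Matrix.of_apply, Matrix.cons_val_zero,
    Matrix.cons_val_one, KK, Pi.star_apply, map_div₀, map_one, map_ofNat, map_neg, star_one,
    one_mul, mul_one] at h1
  norm_num at h1
  have h2 := (Complex.le_def.1 h1).1
  norm_num at h2

/-! ### A second diagonal certificate -/

/-- a second diagonal certificate -/
noncomputable def s2 (z w : ℂ) : ℂ := ((1 - 2 * (z * conj w)) * (1 + (z * conj w) / 2))⁻¹

/-- `1 - 1/s2` -/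
noncomputable def F2 (z w : ℂ) : ℂ := 3 / 2 * (z * conj w) + (z * conj w) ^ 2

lemma kernel_F2 : IsKernelOn Om F2 := by
  refine (((kernel_const (Ω := Om) (c := 3 / 2) (by norm_num)).mul kernel_x).add
    (kernel_x.pow 2)).congr fun z _ w _ => ?_
  unfold F2
  push_cast
  ring

lemma one_sub_F2 (z w : ℂ) : 1 - F2 z w = (1 - 2 * (z * conj w)) * (1 + (z * conj w) / 2) := by
  unfold F2; ring

lemma F2_lt {z : ℂ} (hz : z ∈ Om) : (F2 z z).re < 1 := by
  have ht := mem_Om.1 hz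
  have h2 : F2 z z = ((3 / 2 * ‖z‖ ^ 2 + (‖z‖ ^ 2) ^ 2 : ℝ) : ℂ) := by
    unfold F2
    rw [zz]
    push_cast
    ring
  rw [h2, Complex.ofReal_re]
  nlinarith [sq_nonneg ‖z‖]

lemma kernel_s2 : IsKernelOn Om s2 :=
  (kernel_geom kernel_F2 (kernel_F2.norm_lt_one fun _ hz => F2_lt hz)).congr
    fun z _ w _ => by unfold s2; rw [one_sub_F2]

lemma conj_s2 (z w : ℂ) : conj (s2 z w) = s2 w z := by
  unfold s2
  simp only [map_add, map_mul, map_sub, map_one, map_inv₀, Complex.conj_conj, map_div₀,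
    map_ofNat]
  ring

lemma diff_s2 {w : ℂ} (hw : w ∈ Om) : DifferentiableOn ℂ (fun z => s2 z w) Om := by
  unfold s2
  refine DifferentiableOn.inv (by fun_prop) fun z hz => ?_
  exact mul_ne_zero (d1_ne hz hw) (d2_ne hz hw)

lemma hol_s2 : IsHolomorphicKernelOn Om s2 :=
  ⟨kernel_s2, fun _ hw => diff_s2 hw, fun z hz => (diff_s2 hz).congr fun w _ => conj_s2 z w⟩

lemma cp_s2 : IsNormalizedCPKernelOn Om s2 := by
  refine ⟨kernel_s2, fun z _ => by simp [s2], fun z hz w hw =>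
    inv_ne_zero (mul_ne_zero (d1_ne hz hw) (d2_ne hz hw)), kernel_F2.congr fun z _ w _ => ?_⟩
  unfold s2
  rw [← one_sub_F2, one_div, inv_inv]
  ring

lemma fact2 (z w : ℂ) : KK z w = (1 - 2 * (z * conj w) ^ 2) * s2 z w := by
  unfold KK s2
  rw [div_eq_mul_inv]

lemma diag_s2 : IsDiagonal s2 := by
  refine ⟨fun n => 4 / 5 * 2 ^ n + 1 / 5 * (-1 / 2) ^ n, fun n => ?_, 1 / 2, by norm_num,
    fun z w hz hw => ?_⟩
  · have h1 : (1 : ℝ) ≤ 2 ^ n := one_le_pow₀ (by norm_num)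
    have h3 : |(-1 / 2 : ℝ) ^ n| ≤ 1 := by
      rw [abs_pow]
      refine pow_le_one₀ (abs_nonneg _) ?_
      rw [abs_of_neg] <;> norm_num
    have h4 := neg_abs_le ((-1 / 2 : ℝ) ^ n)
    linarith
  · have hx : ‖z * conj w‖ < 1 / 2 := by
      rw [norm_mul, RCLike.norm_conj]
      nlinarith [norm_nonneg z, norm_nonneg w]
    set x := z * conj w with hxdef
    have h1 : HasSum (fun n : ℕ => (2 * x) ^ n) (1 - 2 * x)⁻¹ := by
      refine hasSum_geometric_of_norm_lt_one ?_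
      rw [norm_mul]
      have h3 : ‖(2 : ℂ)‖ = 2 := by simp
      rw [h3]; linarith
    have h2 : HasSum (fun n : ℕ => (-x / 2) ^ n) (1 - (-x / 2))⁻¹ := by
      refine hasSum_geometric_of_norm_lt_one ?_
      rw [norm_div, norm_neg]
      have h3 : ‖(2 : ℂ)‖ = 2 := by simp
      rw [h3]; linarith [norm_nonneg x]
    have h4 := (h1.mul_left (4 / 5)).add (h2.mul_left (1 / 5))
    have hd1 : 1 - 2 * x ≠ 0 := by
      intro h
      have h5 : ‖2 * x‖ = 1 := by rw [← sub_eq_zero.1 h]; simp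
      rw [norm_mul] at h5
      have h3 : ‖(2 : ℂ)‖ = 2 := by simp
      rw [h3] at h5
      linarith
    have hd2 : 1 + x / 2 ≠ 0 := by
      intro h
      have h5 : ‖x / 2‖ = 1 := by
        have : x / 2 = -1 := by linear_combination h
        rw [this]; simp
      rw [norm_div] at h5
      have h3 : ‖(2 : ℂ)‖ = 2 := by simp
      rw [h3] at h5
      linarith
    have e : 4 / 5 * (1 - 2 * x)⁻¹ + 1 / 5 * (1 - (-x / 2))⁻¹ = s2 z w := by
      unfold s2
      rw [← hxdef]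
      have hd4 : 1 - (-x / 2) = 1 + x / 2 := by ring
      rw [hd4]
      have i1 := mul_inv_cancel₀ hd1
      have i2 := mul_inv_cancel₀ hd2
      refine (inv_eq_of_mul_eq_one_left ?_).symm
      linear_combination (4 / 5 * (1 + x / 2)) * i1 + (1 / 5 * (1 - 2 * x)) * i2
    rw [e] at h4
    have e2 : (fun n : ℕ => 4 / 5 * (2 * x) ^ n + 1 / 5 * (-x / 2) ^ n) =
        fun a => ((4 / 5 * 2 ^ a + 1 / 5 * (-1 / 2) ^ a : ℝ) : ℂ) * z ^ a * conj w ^ a := by
      funext n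
      have h5 : z ^ n * conj w ^ n = x ^ n := by rw [hxdef, mul_pow]
      rw [mul_assoc, h5]
      have h6 : (-x / 2) ^ n = (-1 / 2) ^ n * x ^ n := by rw [← mul_pow]; congr 1; ring
      rw [mul_pow, h6]
      push_cast
      ring
    rw [e2] at h4
    exact h4

lemma s2_ne : s2 (1 / 2) (1 / 2) ≠
    ((1 / (1 - ∑' b : ℕ, th b * ‖(1 / 2 : ℂ)‖ ^ (2 * b)) : ℝ) : ℂ) := by
  have hn : ‖(1 / 2 : ℂ)‖ = 1 / 2 := by
    rw [norm_div, norm_one]; simp
  rw [(hasSum_th (by rw [hn]; norm_num)).tsum_eq, hn]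
  have h1 : s2 (1 / 2) (1 / 2) = ((16 / 9 : ℝ) : ℂ) := by
    unfold s2
    simp only [map_div₀, map_one, map_ofNat]
    norm_num
  rw [h1]
  intro h
  have h2 := Complex.ofReal_injective h
  norm_num at h2

lemma half_mem : (1 / 2 : ℂ) ∈ Om := by
  rw [mem_Om]
  have hn : ‖(1 / 2 : ℂ)‖ = 1 / 2 := by
    rw [norm_div, norm_one]; simp
  rw [hn]; norm_num

/-- **Q1 and Q2 have negative answers.** There are a normalized diagonal holomorphic kernel `K` on a
domain `Ω ⊆ ℂ` with master certificate `ϑ` and `Ω^1_ϑ = Ω`, a kernel `h` and a holomorphic complete Pick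
kernel `s` on `Ω`, normalized at `0`, such that `K = (1 - h) s` and `s` is not diagonal. Moreover `K` is
not itself a complete Pick kernel, and there is a diagonal such `s`, different from `1/(1 - ϑ(z w̄))`. -/
theorem result : ∃ (Ω : Set ℂ) (K h s : ℂ → ℂ → ℂ) (k ϑ : ℕ → ℝ),
    IsOpen Ω ∧ IsConnected Ω ∧ (0 : ℂ) ∈ Ω ∧
    IsHolomorphicKernelOn Ω K ∧ HasDiagonalExpansion K k ∧ k 0 = 1 ∧
    IsMasterCertificate k ϑ ∧ domThetaOne ϑ = Ω ∧
    IsKernelOn Ω h ∧ IsHolomorphicKernelOn Ω s ∧ IsNormalizedCPKernelOn Ω s ∧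
    (∀ z ∈ Ω, ∀ w ∈ Ω, K z w = (1 - h z w) * s z w) ∧ ¬ IsDiagonal s ∧
    ¬ IsKernelOn Ω (fun z w => 1 - 1 / K z w) ∧
    ∃ h' s' : ℂ → ℂ → ℂ, IsKernelOn Ω h' ∧ IsHolomorphicKernelOn Ω s' ∧
      IsNormalizedCPKernelOn Ω s' ∧ (∀ z ∈ Ω, ∀ w ∈ Ω, K z w = (1 - h' z w) * s' z w) ∧
      IsDiagonal s' ∧
      ∃ z ∈ Ω, s' z z ≠ ((1 / (1 - ∑' b : ℕ, ϑ b * ‖z‖ ^ (2 * b)) : ℝ) : ℂ) := by
  refine ⟨Om, KK, hh, ss, kc, th, Metric.isOpen_ball, ?_, ?_, hol_KK, diag_KK, ?_, master, dom_eq,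
    kernel_hh, hol_ss, cp_ss, fun z hz w hw => fact hz hw, not_diag, not_cp_KK,
    fun z w => 2 * (z * conj w) ^ 2, s2, ?_, hol_s2, cp_s2, fun z _ w _ => fact2 z w, diag_s2,
    1 / 2, half_mem, s2_ne⟩
  · exact (convex_ball (0 : ℂ) _).isConnected ⟨0, Metric.mem_ball_self (by positivity)⟩
  · exact Metric.mem_ball_self (by positivity)
  · unfold kc; norm_num
  · refine ((kernel_const (Ω := Om) (c := 2) (by norm_num)).mul (kernel_x.pow 2)).congr
      fun z _ w _ => ?_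
    push_cast
    ring

end Pool.Agent.Results.MP_72b8ed_an.NonDiagonalCertificate
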